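import Pool.Agent.H23.LC.Targets

/-!
# The number of the pairs
-/

set_option autoImplicit false

open NumberField NumberField.InfinitePlace NumberField.Units
  NumberField.Units.dirichletUnitTheorem MeasureTheory Set Filter Complex
open scoped nonZeroDivisors ENNReal

namespace Pool.Agent.H19.GLB

open Pool.Agent.H25.HK Pool.Agent.H23.LB Pool.Agent.H23.LC
open Pool.Agent.H28.RC (Rep ft idl)

theorem cn_ineq {d N κ C Y : ℝ} (hd : 1 ≤ d) (hN : 1 ≤ N) (hκ : 0 < κ) (hC : 1 ≤ C) (hY : 0 < Y) :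
    d ^ ((1 + κ) / 2) * (N ^ κ * (C * Y / Real.sqrt d + (C * Y / Real.sqrt d) ^ 2 / N)) ≤
      C ^ 2 * ((d * N) ^ κ * (Y * (1 + Y / (Real.sqrt d * N)))) := by
  have hd0 : 0 < d := by linarith
  have hN0 : 0 < N := by linarith
  have hs : 0 < Real.sqrt d := Real.sqrt_pos.2 hd0
  have h1 : d ^ ((1 + κ) / 2) = Real.sqrt d * d ^ (κ / 2) := by
    rw [Real.sqrt_eq_rpow, ← Real.rpow_add hd0]
    congr 1
    ring
  have h2 : d ^ (κ / 2) ≤ d ^ κ := Real.rpow_le_rpow_of_exponent_le hd (by linarith)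
  have h3 : Real.sqrt d * (C * Y / Real.sqrt d + (C * Y / Real.sqrt d) ^ 2 / N) =
      C * Y + C ^ 2 * (Y * (Y / (Real.sqrt d * N))) := by
    field_simp
  have h4 : C * Y ≤ C ^ 2 * Y := mul_le_mul_of_nonneg_right (by nlinarith) hY.le
  have h5 : 0 ≤ C ^ 2 * (Y * (Y / (Real.sqrt d * N))) := by positivity
  calc d ^ ((1 + κ) / 2) * (N ^ κ * (C * Y / Real.sqrt d + (C * Y / Real.sqrt d) ^ 2 / N))
      = d ^ (κ / 2) * N ^ κ * (Real.sqrt d * (C * Y / Real.sqrt d +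
          (C * Y / Real.sqrt d) ^ 2 / N)) := by rw [h1]; ring
    _ = d ^ (κ / 2) * N ^ κ * (C * Y + C ^ 2 * (Y * (Y / (Real.sqrt d * N)))) := by rw [h3]
    _ ≤ d ^ κ * N ^ κ * (C ^ 2 * Y + C ^ 2 * (Y * (Y / (Real.sqrt d * N)))) := by gcongr
    _ = C ^ 2 * ((d * N) ^ κ * (Y * (1 + Y / (Real.sqrt d * N)))) := by
        rw [Real.mul_rpow hd0.le hN0.le]; ring

open scoped Classical in
theorem pf_CN (hTF : U_TF) (hFF : U_FF) (hAV : U_AV) : U_CN := by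
  intro n hn
  obtain ⟨C₁, hC₁, h1⟩ := hTF n hn
  obtain ⟨C₂, hC₂, h2⟩ := hFF n C₁ hn hC₁
  obtain ⟨C₃, B, hC₃, hB, h3⟩ := hAV n hn
  refine ⟨C₁ * C₂ * C₃ * C₂ ^ 2, B, by positivity, hB, ?_⟩
  intro κ hκ hκ1 K _ _ hK f hf ι _ M hM δ Y hδ hδ1 hY
  have hd : (1 : ℝ) ≤ |(discr K : ℝ)| := by
    have h4 : 1 ≤ |discr K| := Int.one_le_abs (discr_ne_zero K)
    exact_mod_cast h4
  have hNf : (1 : ℝ) ≤ Nf K f := by
    unfold Nf
    have : 0 < Ideal.absNorm f := Nat.pos_of_ne_zero (by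
      rw [Ne, Ideal.absNorm_eq_zero_iff]; exact hf)
    exact_mod_cast this
  have hδn : (1 : ℝ) ≤ δ ^ (-(n : ℝ)) :=
    Real.one_le_rpow_of_pos_of_le_one_of_nonpos hδ (by linarith) (by
      have : (0 : ℝ) ≤ n := Nat.cast_nonneg n
      linarith)
  set N : ℝ := Nf K f * δ ^ (-(n : ℝ)) with hN
  have hN1 : 1 ≤ N := by nlinarith
  set s : ℝ := Real.sqrt |(discr K : ℝ)| with hs
  have hs0 : 0 < s := Real.sqrt_pos.2 (by linarith)
  set V : ℝ := C₂ * Y / s with hV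
  have hV0 : 0 < V := by positivity
  have h4 := h3 κ hκ hκ1 K hK f hf ι M hM N V hN1 hV0
  have hcw : 0 ≤ cw K := by unfold cw; positivity
  have h5 : ∀ c, ∫⁻ z in Fd K, ∫⁻ τ : ℝ, NT δ Y (M c) τ z *
      NB δ ((f : FI K) * M c) (yM K (M c) τ z) ≤
      ENNReal.ofReal (C₁ * δ ^ np K) * (ENNReal.ofReal C₂ * ∫⁻ z in Fd K,
        ENNReal.ofReal ((FT K (M c) z (1 / V) - 1) * FT K ((f : FI K) * M c) z (N / V))) := by
    intro c
    refine (h1 K hK f (M c) δ Y hf (hM.1 c) hδ hδ1 hY).trans ?_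
    exact mul_le_mul_right (h2 K hK f (M c) δ Y hf (hM.1 c) hδ hδ1 hY) _
  calc ∑ c, ∫⁻ z in Fd K, ∫⁻ τ : ℝ, NT δ Y (M c) τ z *
        NB δ ((f : FI K) * M c) (yM K (M c) τ z)
      ≤ ∑ c, ENNReal.ofReal (C₁ * δ ^ np K) * (ENNReal.ofReal C₂ * ∫⁻ z in Fd K,
        ENNReal.ofReal ((FT K (M c) z (1 / V) - 1) * FT K ((f : FI K) * M c) z (N / V))) :=
        Finset.sum_le_sum fun c _ => h5 c
    _ = ENNReal.ofReal (C₁ * δ ^ np K) * (ENNReal.ofReal C₂ * ∑ c, ∫⁻ z in Fd K,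
        ENNReal.ofReal ((FT K (M c) z (1 / V) - 1) * FT K ((f : FI K) * M c) z (N / V))) := by
        rw [← Finset.mul_sum, ← Finset.mul_sum]
    _ ≤ ENNReal.ofReal (C₁ * δ ^ np K) * (ENNReal.ofReal C₂ * ENNReal.ofReal
          (C₃ * κ ^ (-B) * (cw K * |(discr K : ℝ)| ^ ((1 + κ) / 2)) *
            (N ^ κ * (V + V ^ 2 / N)))) := by gcongr
    _ = ENNReal.ofReal (C₁ * δ ^ np K * (C₂ *
          (C₃ * κ ^ (-B) * (cw K * |(discr K : ℝ)| ^ ((1 + κ) / 2)) *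
            (N ^ κ * (V + V ^ 2 / N))))) := by
        rw [ENNReal.ofReal_mul (p := C₁ * δ ^ np K) (by positivity),
          ENNReal.ofReal_mul (p := C₂) (by positivity)]
    _ ≤ _ := by
        refine ENNReal.ofReal_le_ofReal ?_
        have h6 := cn_ineq hd hN1 hκ hC₂ hY
        rw [← hs, ← hV] at h6
        have h7 : 0 ≤ C₁ * δ ^ np K * C₂ * C₃ * κ ^ (-B) * cw K := by positivity
        calc C₁ * δ ^ np K * (C₂ * (C₃ * κ ^ (-B) * (cw K * |(discr K : ℝ)| ^ ((1 + κ) / 2)) *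
              (N ^ κ * (V + V ^ 2 / N))))
            = C₁ * δ ^ np K * C₂ * C₃ * κ ^ (-B) * cw K * (|(discr K : ℝ)| ^ ((1 + κ) / 2) *
              (N ^ κ * (V + V ^ 2 / N))) := by ring
          _ ≤ C₁ * δ ^ np K * C₂ * C₃ * κ ^ (-B) * cw K * (C₂ ^ 2 *
              ((|(discr K : ℝ)| * N) ^ κ * (Y * (1 + Y / (s * N))))) :=
              mul_le_mul_of_nonneg_left h6 h7
          _ = _ := by ring

end Pool.Agent.H19.GLB
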