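import Pool.Agent.H23.LC.Targets

/-!
# The family is finite
-/

set_option autoImplicit false

open NumberField NumberField.InfinitePlace NumberField.Units
  NumberField.Units.dirichletUnitTheorem MeasureTheory Set Filter Complex
open scoped nonZeroDivisors ENNReal

namespace Pool.Agent.H19.GLB

open Pool.Agent.H25.HK Pool.Agent.H23.LB Pool.Agent.H23.LC
open Pool.Agent.H28.RC (Rep ft idl)

theorem bs_one {K : Type} [Field K] [NumberField K] {f : Ideal (𝓞 K)} (χ : HG K f) (t : ℝ) :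
    bs χ.ψ (fun _ => 1) 1 t = 1 := by
  classical
  unfold bs
  rw [tsum_eq_single (⟨⊤, top_ne_bot⟩ : NZI K)]
  · rw [if_pos]
    · rw [χ.map_top, Ideal.absNorm_top, Nat.cast_one, one_cpow, mul_one, mul_one]
    · rw [Ideal.absNorm_top]
      norm_num
  · intro J hJ
    rw [if_neg]
    rintro ⟨h1, h2⟩
    apply hJ
    have h3 : 1 ≤ Ideal.absNorm J.1 := by exact_mod_cast h1
    have h4 : Ideal.absNorm J.1 < 2 := by
      rw [mul_one] at h2
      exact_mod_cast h2
    have h5 : Ideal.absNorm J.1 = 1 := by omega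
    exact Subtype.ext (Ideal.absNorm_eq_one_iff.1 h5)

theorem pf_FG (hMV : U_MV) : U_FG := by
  intro K _ _ f T hf hT
  obtain ⟨C, B, hC, hB, h⟩ := hMV (Module.finrank ℚ K) Module.finrank_pos
  have h1 := fun S hS => h 1 one_pos le_rfl K rfl f hf T hT S hS 1 1 (fun _ => 1) one_pos
    zero_le_one (fun _ => by simp)
  set R : ℝ := C * 1 ^ (-B) * (|(discr K : ℝ)| * (Nf K f * T ^ Module.finrank ℚ K)) ^ (1 : ℝ) *
    (T ^ Module.finrank ℚ K * (classNumber K * regulator K * Phi K f)) *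
    (1 ^ 2 * (1 * (1 + 1 / (Real.sqrt |(discr K : ℝ)| * (Nf K f * T ^ Module.finrank ℚ K)))))
    with hR
  by_contra hinf
  obtain ⟨m, hm⟩ := exists_nat_gt (|R| / (2 * T))
  obtain ⟨S, hS1, hS2⟩ := (show (box K f T).Infinite from hinf).exists_subset_card_eq m
  have h2 := h1 S fun χ hχ => hS1 hχ
  have h3 : ∀ χ ∈ S, ∫⁻ t in Icc (-T) T, ENNReal.ofReal (‖bs χ.ψ (fun _ => 1) 1 t‖ ^ 2) =
      ENNReal.ofReal (2 * T) := by
    intro χ _
    simp_rw [bs_one χ, norm_one, one_pow, ENNReal.ofReal_one]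
    rw [setLIntegral_one, Real.volume_Icc]
    congr 1
    ring
  rw [Finset.sum_congr rfl h3, Finset.sum_const, hS2, nsmul_eq_mul] at h2
  have hT0 : 0 < 2 * T := by linarith
  have h4 : (m : ℝ≥0∞) * ENNReal.ofReal (2 * T) = ENNReal.ofReal (m * (2 * T)) := by
    rw [ENNReal.ofReal_mul (Nat.cast_nonneg m), ENNReal.ofReal_natCast]
  rw [h4] at h2
  have h5 : (m : ℝ) * (2 * T) ≤ |R| := by
    have h6 := h2.trans (ENNReal.ofReal_le_ofReal (le_abs_self R))
    exact (ENNReal.ofReal_le_ofReal_iff (abs_nonneg R)).1 h6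
  rw [div_lt_iff₀ hT0] at hm
  linarith

end Pool.Agent.H19.GLB
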