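import Pool.Agent.H23.LC.Targets

/-!
# The sum over the residue classes
-/

set_option autoImplicit false

open NumberField NumberField.InfinitePlace NumberField.Units
  NumberField.Units.dirichletUnitTheorem MeasureTheory Set Filter Complex
open scoped nonZeroDivisors ENNReal

namespace Pool.Agent.H19.GLB

open Pool.Agent.H25.HK Pool.Agent.H23.LB Pool.Agent.H23.LC
open Pool.Agent.H28.RC (Rep ft idl)

variable {K : Type} [Field K] [NumberField K]

theorem norm_an (v : InfinitePlace K) (θ : ℝ) : ‖an v θ‖ = 1 := by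
  unfold an
  split_ifs
  · simp
  · simp
  · exact Complex.norm_exp_ofReal_mul_I θ

/-- the difference of two points of a thin region -/
theorem sub_small {δ : ℝ} {x y : K} {Y θ : InfinitePlace K → ℝ} (hx : Bp δ x Y θ)
    (hy : Bp δ y Y θ) (v : InfinitePlace K) : v (y - x) * Real.exp (Y v / 2) ≤ 2 * δ := by
  have h1 := hx v
  have h2 := hy v
  have h3 : ‖v.embedding (y - x) * ((Real.exp (Y v / 2) : ℝ) : ℂ) * an v (θ v)‖ ≤ 2 * δ := by
    have e : v.embedding (y - x) * ((Real.exp (Y v / 2) : ℝ) : ℂ) * an v (θ v) =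
        (v.embedding y * ((Real.exp (Y v / 2) : ℝ) : ℂ) * an v (θ v) - 1) -
        (v.embedding x * ((Real.exp (Y v / 2) : ℝ) : ℂ) * an v (θ v) - 1) := by
      rw [map_sub]; ring
    rw [e]
    calc _ ≤ _ + _ := norm_sub_le _ _
      _ ≤ 2 * δ := by linarith
  rw [norm_mul, norm_mul, norm_an, mul_one, Complex.norm_real, Real.norm_of_nonneg
    (Real.exp_pos _).le, InfinitePlace.norm_embedding_eq] at h3
  exact h3

open scoped Classical in
theorem pf_PS : U_PS := by
  intro K _ _ f M X δ Y β b τ z θ _ _ hX _ _ _ hb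
  have hβ : 0 ≤ β := (norm_nonneg _).trans (hb ⊤)
  let P : {x : K // Bl Y M x} → Prop := fun x => Bp δ x.1 (yM K M τ z) θ
  let A : K → {x : K // Bl Y M x} → ℝ≥0∞ := fun r x =>
    if x.1 - r ∈ (f : FI K) * M ∧ P x then 1 else 0
  -- one class
  have h1 : ∀ r, ENNReal.ofReal (‖Sp f δ Y b M r τ z θ‖ ^ 2) ≤
      ENNReal.ofReal (β ^ 2) * ∑' x, ∑' y, A r x * A r y := by
    intro r
    have h2 : ‖Sp f δ Y b M r τ z θ‖ₑ ≤ ENNReal.ofReal β * ∑' x, A r x := by
      unfold Sp
      refine enorm_tsum_le_tsum_enorm.trans ?_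
      rw [← ENNReal.tsum_mul_left]
      refine ENNReal.tsum_le_tsum fun x => ?_
      simp only [A, P]
      split_ifs
      · rw [mul_one, ← ofReal_norm]
        exact ENNReal.ofReal_le_ofReal (hb _)
      · simp
    rw [ENNReal.ofReal_pow (norm_nonneg _), ENNReal.ofReal_pow hβ, ofReal_norm]
    calc ‖Sp f δ Y b M r τ z θ‖ₑ ^ 2 ≤ (ENNReal.ofReal β * ∑' x, A r x) ^ 2 :=
          pow_le_pow_left₀ (zero_le) h2 2
      _ = ENNReal.ofReal β ^ 2 * ((∑' x, A r x) * ∑' y, A r y) := by ring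
      _ = ENNReal.ofReal β ^ 2 * ∑' x, ∑' y, A r x * A r y := by
          rw [← ENNReal.tsum_mul_right]
          simp_rw [ENNReal.tsum_mul_left]
  -- the pairs
  have h2 : ∀ x y, ∑ r ∈ X, A r x * A r y ≤
      (if P x then 1 else 0) * (if y.1 - x.1 ∈ (f : FI K) * M ∧ P y then 1 else 0) := by
    intro x y
    obtain ⟨r₀, ⟨hr1, hr2⟩, hr3⟩ := hX.2 x.1 x.2.1
    have h3 : ∀ r ∈ X, r ≠ r₀ → A r x * A r y = 0 := by
      intro r hr hne
      have : A r x = 0 := by
        simp only [A]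
        rw [if_neg]
        rintro ⟨h4, _⟩
        exact hne (hr3 r ⟨hr, h4⟩)
      rw [this, zero_mul]
    rw [Finset.sum_eq_single_of_mem r₀ hr1 h3]
    simp only [A]
    by_cases hx : P x
    · by_cases hy : y.1 - r₀ ∈ (f : FI K) * M ∧ P y
      · rw [if_pos ⟨hr2, hx⟩, if_pos hy, if_pos hx, if_pos]
        refine ⟨?_, hy.2⟩
        have h4 : y.1 - x.1 = (y.1 - r₀) - (x.1 - r₀) := by ring
        rw [h4]
        exact Submodule.sub_mem _ hy.1 hr2
      · rw [if_neg hy, mul_zero]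
        exact zero_le
    · rw [if_neg (fun h => hx h.2), zero_mul]
      exact zero_le
  -- the inner sum
  have h3 : ∀ x, P x → ∑' y : {x : K // Bl Y M x},
      (if y.1 - x.1 ∈ (f : FI K) * M ∧ P y then (1 : ℝ≥0∞) else 0) ≤
        NB (2 * δ) ((f : FI K) * M) (yM K M τ z) := by
    intro x hx
    let S : Set {x : K // Bl Y M x} := {y | y.1 - x.1 ∈ (f : FI K) * M ∧ P y}
    have h4 : ∑' y : {x : K // Bl Y M x},
        (if y.1 - x.1 ∈ (f : FI K) * M ∧ P y then (1 : ℝ≥0∞) else 0) = ∑' y : S, (1 : ℝ≥0∞) := by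
      rw [tsum_subtype S fun _ => (1 : ℝ≥0∞)]
      refine tsum_congr fun y => ?_
      rw [Set.indicator_apply]
      rfl
    rw [h4]
    let φ : S → {h : K // h ∈ (f : FI K) * M} := fun y => ⟨y.1.1 - x.1, y.2.1⟩
    have hφ : Function.Injective φ := by
      intro y y' h
      have h5 : y.1.1 - x.1 = y'.1.1 - x.1 := congrArg Subtype.val h
      have h6 : y.1.1 = y'.1.1 := by linear_combination h5
      exact Subtype.ext (Subtype.ext h6)
    let g : {h : K // h ∈ (f : FI K) * M} → ℝ≥0∞ := fun h =>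
      if ∀ v : InfinitePlace K, v h.1 * Real.exp (yM K M τ z v / 2) ≤ 2 * δ then 1 else 0
    have h7 : ∀ y : S, (1 : ℝ≥0∞) = g (φ y) := by
      intro y
      have h8 : ∀ v : InfinitePlace K, v (φ y).1 * Real.exp (yM K M τ z v / 2) ≤ 2 * δ :=
        fun v => sub_small hx y.2.2 v
      change 1 = if ∀ v : InfinitePlace K, v (φ y).1 * Real.exp (yM K M τ z v / 2) ≤ 2 * δ
        then (1 : ℝ≥0∞) else 0
      rw [if_pos h8]
    have h9 : ∑' y : S, g (φ y) ≤ ∑' h, g h := ENNReal.tsum_comp_le_tsum_of_injective hφ g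
    calc ∑' y : S, (1 : ℝ≥0∞) = ∑' y : S, g (φ y) := tsum_congr h7
      _ ≤ ∑' h, g h := h9
      _ = NB (2 * δ) ((f : FI K) * M) (yM K M τ z) := rfl
  calc ∑ r ∈ X, ENNReal.ofReal (‖Sp f δ Y b M r τ z θ‖ ^ 2)
      ≤ ∑ r ∈ X, ENNReal.ofReal (β ^ 2) * ∑' x, ∑' y, A r x * A r y :=
        Finset.sum_le_sum fun r _ => h1 r
    _ = ENNReal.ofReal (β ^ 2) * ∑' x, ∑' y, ∑ r ∈ X, A r x * A r y := by
        rw [← Finset.mul_sum, ← Summable.tsum_finsetSum fun r _ => ENNReal.summable]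
        congr 1
        refine tsum_congr fun x => ?_
        rw [Summable.tsum_finsetSum fun r _ => ENNReal.summable]
    _ ≤ ENNReal.ofReal (β ^ 2) * ∑' x, (if P x then 1 else 0) *
          NB (2 * δ) ((f : FI K) * M) (yM K M τ z) := by
        refine mul_le_mul_right (ENNReal.tsum_le_tsum fun x => ?_) _
        refine (ENNReal.tsum_le_tsum fun y => h2 x y).trans ?_
        rw [ENNReal.tsum_mul_left]
        by_cases hx : P x
        · exact mul_le_mul_right (h3 x hx) _
        · rw [if_neg hx, zero_mul]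
          exact zero_le
    _ = ENNReal.ofReal (β ^ 2) * NP δ Y M τ z θ *
          NB (2 * δ) ((f : FI K) * M) (yM K M τ z) := by
        rw [ENNReal.tsum_mul_right, mul_assoc]
        rfl

end Pool.Agent.H19.GLB
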