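import Pool.Agent.H23.LC.Targets
import Pool.Agent.H87.HK.YC

/-!
# Volumes of boxes at infinity (row VL)
-/

set_option autoImplicit false

open NumberField NumberField.InfinitePlace NumberField.Units
  NumberField.Units.dirichletUnitTheorem MeasureTheory Set Filter Complex
open scoped nonZeroDivisors ENNReal

namespace Pool.Agent.H19.GLB

open _root_.Pool.Agent.H25.HK _root_.Pool.Agent.H23.LB _root_.Pool.Agent.H23.LC
open _root_.Pool.Agent.H87.HK (yc_w0 yc_ne yc_main mult_pos')

section

variable (K : Type) [Field K] [NumberField K]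

open scoped Classical in
lemma vl_card : Fintype.card {w : InfinitePlace K // w ≠ w₀} + 1 = np K := by
  rw [np, ← card_eq_nrRealPlaces_add_nrComplexPlaces, Fintype.card_subtype_compl,
    Fintype.card_subtype_eq]
  have : 0 < Fintype.card (InfinitePlace K) := Fintype.card_pos
  omega

lemma vl_np_le : np K ≤ Module.finrank ℚ K := by
  rw [← card_add_two_mul_card_eq_rank, np]
  omega

open scoped Classical in
/-- The volume of a box. -/
lemma vl_box (a b : ℝ) (ha : 0 ≤ a) (_hb : 0 ≤ b) :
    volume (((univ : Set {w : InfinitePlace K // w ≠ w₀}).pi fun _ => Icc (-a) a) ×ˢ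
      Icc (-b) b : Set (logSpace K × ℝ)) =
    ENNReal.ofReal ((2 * a) ^ Fintype.card {w : InfinitePlace K // w ≠ w₀} * (2 * b)) := by
  rw [Measure.volume_eq_prod, Measure.prod_prod, volume_pi_pi, Real.volume_Icc, Finset.prod_const,
    Finset.card_univ, Real.volume_Icc, ENNReal.ofReal_mul (by positivity),
    ENNReal.ofReal_pow (by positivity)]
  ring_nf

end

theorem pf_VL : U_VL := by
  intro n
  refine ⟨(1 / (4 * ((n : ℝ) + 1))) ^ (n + 1), 4 ^ n * n, by positivity, by positivity, ?_⟩
  intro K _ _ hK δ hδ _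
  classical
  have hn1 : 1 ≤ n := by
    rw [← hK]; exact Module.finrank_pos
  have hn1' : (1 : ℝ) ≤ n := by exact_mod_cast hn1
  have hnpos : (0 : ℝ) < n := by linarith
  have hcard := vl_card K
  have hnp : np K ≤ n := hK ▸ vl_np_le K
  have hmult1 : ∀ v : InfinitePlace K, (1 : ℝ) ≤ (v.mult : ℝ) := fun v => by
    exact_mod_cast mult_pos
  have hmult2 : ∀ v : InfinitePlace K, (v.mult : ℝ) ≤ 2 := fun v => by
    have : v.mult ≤ 2 := by
      unfold InfinitePlace.mult
      split_ifs <;> omega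
    exact_mod_cast this
  set m := Fintype.card {w : InfinitePlace K // w ≠ w₀} with hm
  have hmn : m + 1 ≤ n := by omega
  constructor
  · -- lower bound
    have hsub : (((univ : Set {w : InfinitePlace K // w ≠ w₀}).pi fun _ =>
        Icc (-(δ / (8 * ((n : ℝ) + 1)))) (δ / (8 * ((n : ℝ) + 1)))) ×ˢ
        Icc (-(δ / 4)) (δ / 4) : Set (logSpace K × ℝ)) ⊆
        {p : logSpace K × ℝ | ∀ v : InfinitePlace K, |yc K p.2 p.1 v| ≤ δ} := by
      rintro ⟨z, τ⟩ ⟨hz, hτ⟩ v
      have hz' : ∀ w, |z w| ≤ δ / (8 * ((n : ℝ) + 1)) := fun w => abs_le.2 (hz w (mem_univ _))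
      have hτ' : |τ| ≤ δ / 4 := abs_le.2 hτ
      have h1 : |2 * τ / (Module.finrank ℚ K : ℝ)| ≤ δ / 2 := by
        rw [hK, abs_div, abs_mul, abs_of_pos (by norm_num : (0 : ℝ) < 2),
          abs_of_pos hnpos, div_le_iff₀ hnpos]
        nlinarith
      have h8 : δ / (8 * ((n : ℝ) + 1)) * n ≤ δ / 8 := by
        rw [div_mul_eq_mul_div, div_le_div_iff₀ (by positivity) (by norm_num)]
        nlinarith
      by_cases h : v = w₀
      · subst h
        simp only
        rw [yc_w0]
        have h2 : |∑ w, z w| ≤ δ / 8 := by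
          refine (Finset.abs_sum_le_sum_abs _ _).trans ?_
          refine (Finset.sum_le_sum fun w _ => hz' w).trans ?_
          rw [Finset.sum_const, Finset.card_univ, nsmul_eq_mul, ← hm]
          have : (m : ℝ) ≤ n := by exact_mod_cast (by omega : m ≤ n)
          have h0 : (0 : ℝ) ≤ δ / (8 * ((n : ℝ) + 1)) := by positivity
          nlinarith
        have h3 : |-(2 / ((w₀ : InfinitePlace K).mult : ℝ)) * ∑ w, z w| ≤ δ / 4 := by
          rw [abs_mul, abs_neg, abs_div, abs_of_pos (by norm_num : (0 : ℝ) < 2),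
            abs_of_pos (mult_pos' K _)]
          have h4 : 2 / ((w₀ : InfinitePlace K).mult : ℝ) ≤ 2 := by
            rw [div_le_iff₀ (mult_pos' K _)]
            linarith [hmult1 (w₀ : InfinitePlace K)]
          calc 2 / ((w₀ : InfinitePlace K).mult : ℝ) * |∑ w, z w| ≤ 2 * (δ / 8) :=
                mul_le_mul h4 h2 (abs_nonneg _) (by norm_num)
            _ = δ / 4 := by ring
        exact (abs_add_le _ _).trans (by linarith)
      · have h2 := yc_ne K τ z ⟨v, h⟩
        simp only at h2 ⊢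
        rw [h2]
        have h3 : |2 * z ⟨v, h⟩ / (v.mult : ℝ)| ≤ δ / 4 := by
          rw [abs_div, abs_mul, abs_of_pos (by norm_num : (0 : ℝ) < 2), abs_of_pos (mult_pos' K _),
            div_le_iff₀ (mult_pos' K _)]
          have h4 := hz' ⟨v, h⟩
          have h5 : δ / (8 * ((n : ℝ) + 1)) ≤ δ / 8 := by
            have h0 : (0 : ℝ) ≤ δ / (8 * ((n : ℝ) + 1)) := by positivity
            nlinarith
          nlinarith [hmult1 v]
        exact (abs_add_le _ _).trans (by linarith)
    refine le_trans ?_ (measure_mono hsub)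
    rw [vl_box K _ _ (by positivity) (by positivity), ← hm, ← hcard]
    apply ENNReal.ofReal_le_ofReal
    set ρ : ℝ := 1 / (4 * ((n : ℝ) + 1)) with hρ
    have hρ0 : 0 < ρ := by positivity
    have hρ1 : ρ ≤ 1 / 2 := by
      rw [hρ, div_le_div_iff₀ (by positivity) (by norm_num)]
      nlinarith
    have e1 : 2 * (δ / (8 * ((n : ℝ) + 1))) = ρ * δ := by
      rw [hρ]; field_simp; norm_num
    rw [e1, mul_pow, show 2 * (δ / 4) = δ / 2 by ring]
    have h1 : ρ ^ (n + 1) ≤ ρ ^ (m + 1) :=
      pow_le_pow_of_le_one hρ0.le (by linarith) (by omega)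
    have h2 : ρ ^ (m + 1) ≤ ρ ^ m * (1 / 2) := by
      rw [pow_succ]
      exact mul_le_mul_of_nonneg_left hρ1 (by positivity)
    calc ρ ^ (n + 1) * δ ^ (m + 1) ≤ (ρ ^ m * (1 / 2)) * δ ^ (m + 1) :=
          mul_le_mul_of_nonneg_right (h1.trans h2) (by positivity)
      _ = ρ ^ m * δ ^ m * (δ / 2) := by ring
  · -- upper bound
    have hsub : {p : logSpace K × ℝ | ∀ v : InfinitePlace K, |yc K p.2 p.1 v| ≤ δ} ⊆
        (((univ : Set {w : InfinitePlace K // w ≠ w₀}).pi fun _ =>
        Icc (-(2 * δ)) (2 * δ)) ×ˢ Icc (-(n * δ / 2)) (n * δ / 2) : Set (logSpace K × ℝ)) := by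
      rintro ⟨z, τ⟩ hp
      have hp' : ∀ v : InfinitePlace K, |yc K τ z v| ≤ δ := hp
      have hτ : |τ| ≤ n * δ / 2 := by
        have h1 := (yc_main K).1 τ z
        have h2 : |2 * τ| ≤ n * δ := by
          rw [← h1]
          refine (Finset.abs_sum_le_sum_abs _ _).trans ?_
          have h3 : ∀ v ∈ (Finset.univ : Finset (InfinitePlace K)),
              |(v.mult : ℝ) * yc K τ z v| ≤ (v.mult : ℝ) * δ := by
            intro v _
            rw [abs_mul, abs_of_pos (mult_pos' K v)]
            exact mul_le_mul_of_nonneg_left (hp' v) (mult_pos' K v).le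
          refine (Finset.sum_le_sum h3).trans ?_
          rw [← Finset.sum_mul, ← Nat.cast_sum, sum_mult_eq, hK]
        rw [abs_mul, abs_of_pos (by norm_num : (0 : ℝ) < 2)] at h2
        linarith
      refine ⟨?_, abs_le.1 hτ⟩
      intro w _
      have h2 := yc_ne K τ z w
      have h3 := hp' w.1
      rw [h2, hK] at h3
      have h4 : |2 * τ / (n : ℝ)| ≤ δ := by
        rw [abs_div, abs_mul, abs_of_pos (by norm_num : (0 : ℝ) < 2), abs_of_pos hnpos,
          div_le_iff₀ hnpos]
        linarith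
      have h5 : |2 * z w / (w.1.mult : ℝ)| ≤ 2 * δ := by
        have : 2 * z w / (w.1.mult : ℝ) =
            (2 * τ / (n : ℝ) + 2 * z w / (w.1.mult : ℝ)) - 2 * τ / (n : ℝ) := by ring
        rw [this]
        exact (abs_sub _ _).trans (by linarith)
      rw [abs_div, abs_mul, abs_of_pos (by norm_num : (0 : ℝ) < 2), abs_of_pos (mult_pos' K _),
        div_le_iff₀ (mult_pos' K _)] at h5
      have h6 := hmult2 w.1
      exact abs_le.1 (by nlinarith)
    refine (measure_mono hsub).trans ?_
    rw [vl_box K _ _ (by positivity) (by positivity), ← hm, ← hcard]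
    apply ENNReal.ofReal_le_ofReal
    have h1 : (4 : ℝ) ^ m ≤ 4 ^ n := pow_le_pow_right₀ (by norm_num) (by omega)
    calc (2 * (2 * δ)) ^ m * (2 * (n * δ / 2)) = 4 ^ m * (n * δ ^ (m + 1)) := by
          rw [show 2 * (2 * δ) = 4 * δ by ring, mul_pow]; ring
      _ ≤ 4 ^ n * (n * δ ^ (m + 1)) := mul_le_mul_of_nonneg_right h1 (by positivity)
      _ = 4 ^ n * n * δ ^ (m + 1) := by ring

end Pool.Agent.H19.GLB
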