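import Pool.Agent.H23.LC.Targets

/-!
# Reflection of the fundamental domain
-/

set_option autoImplicit false

open NumberField NumberField.InfinitePlace NumberField.Units
  NumberField.Units.dirichletUnitTheorem MeasureTheory Set Filter Complex
open scoped nonZeroDivisors ENNReal

namespace Pool.Agent.H19.GLB

open Pool.Agent.H25.HK Pool.Agent.H23.LB Pool.Agent.H23.LC
open Pool.Agent.H28.RC (Rep ft idl)

theorem gen_neg {E : Type*} [NormedAddCommGroup E] [NormedSpace ℝ E] [MeasurableSpace E]
    [BorelSpace E] [FiniteDimensional ℝ E] (μ : Measure E) [μ.IsAddHaarMeasure]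
    [μ.IsNegInvariant] {κ : Type*} [Finite κ]
    (b : Module.Basis κ ℝ E) (L : Submodule ℤ E) (hL : Submodule.span ℤ (Set.range b) = L)
    (g : E → ℝ≥0∞) (hg : ∀ z, ∀ l ∈ L, g (z + l) = g z) :
    ∫⁻ z in ZSpan.fundamentalDomain b, g (-z) ∂μ = ∫⁻ z in ZSpan.fundamentalDomain b, g z ∂μ := by
  subst hL
  set F := ZSpan.fundamentalDomain b with hF
  have hd : IsAddFundamentalDomain (Submodule.span ℤ (Set.range b)) F μ :=
    ZSpan.isAddFundamentalDomain b μ
  have : Countable (Submodule.span ℤ (Set.range b)) := inferInstance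
  have : VAddInvariantMeasure (Submodule.span ℤ (Set.range b)) E μ :=
    inferInstanceAs (VAddInvariantMeasure (Submodule.span ℤ (Set.range b)).toAddSubgroup E μ)
  have hneg : IsAddFundamentalDomain (Submodule.span ℤ (Set.range b)) (Neg.neg ⁻¹' F) μ := by
    refine hd.preimage_of_equiv (f := Neg.neg)
      (Measure.measurePreserving_neg μ).quasiMeasurePreserving
      (e := Neg.neg) neg_bijective ?_
    intro l z
    simp [Submodule.vadd_def, vadd_eq_add, add_comm]
  have h1 : ∫⁻ z in F, g (-z) ∂μ = ∫⁻ z in Neg.neg ⁻¹' F, g z ∂μ := by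
    have := (Measure.measurePreserving_neg μ).setLIntegral_comp_preimage_emb
      (MeasurableEquiv.neg E).measurableEmbedding (fun z => g (-z)) F
    simpa using this.symm
  rw [h1]
  refine (hneg.setLIntegral_eq hd g ?_)
  intro l z
  rw [Submodule.vadd_def, vadd_eq_add, add_comm]
  exact hg z l l.2

open scoped Classical in
theorem pf_ZN : U_ZN := by
  intro K _ _ g _ hg
  exact gen_neg (volume : Measure (logSpace K))
    ((basisUnitLattice K).ofZLatticeBasis ℝ (unitLattice K)) (unitLattice K)
    ((basisUnitLattice K).ofZLatticeBasis_span ℝ) g hg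

end Pool.Agent.H19.GLB
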